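import Pool.Agent.Q290.SC.Stm

/-! Project SC (helper290), job NT: elementary number theory. -/

set_option autoImplicit false

namespace Pool.Agent.Q190.SC

open Pool.Agent.Q290.SC Pool.Agent.H29R2.MG

/-- JOB NT -/
theorem nt : S_NT := by
  classical
  intro a y z ha hex
  obtain ⟨α, β, γ, h⟩ := hex
  obtain ⟨Q, hQ⟩ : ∃ Q : Finset ℕ, Q = a.natAbs.primeFactors.filter (fun p : ℕ => ¬ (p : ℤ) ∣ y) := ⟨_, rfl⟩
  obtain ⟨t, ht⟩ : ∃ t : ℕ, t = ∏ p ∈ Q, p := ⟨_, rfl⟩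
  refine ⟨(t : ℤ), ?_⟩
  rw [Int.isCoprime_iff_gcd_eq_one]
  by_contra hne
  obtain ⟨p, hp, hpd⟩ := Nat.exists_prime_and_dvd hne
  have hpz : Prime (p : ℤ) := Nat.prime_iff_prime_int.1 hp
  have h1 : (p : ℤ) ∣ a := (Int.natCast_dvd_natCast.2 hpd).trans (Int.gcd_dvd_left ..)
  have h2 : (p : ℤ) ∣ y + t * z := (Int.natCast_dvd_natCast.2 hpd).trans (Int.gcd_dvd_right ..)
  by_cases hy : (p : ℤ) ∣ y
  · have h3 : (p : ℤ) ∣ t * z := (dvd_add_right hy).1 h2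
    rcases hpz.dvd_or_dvd h3 with h4 | h4
    · have h5 : p ∣ t := Int.natCast_dvd_natCast.1 h4
      rw [ht] at h5
      obtain ⟨r, hr, hpr⟩ := (Prime.dvd_finsetProd_iff (Nat.prime_iff.1 hp) _).1 h5
      rw [hQ, Finset.mem_filter] at hr
      have h6 : r.Prime := Nat.prime_of_mem_primeFactors hr.1
      have h7 : p = r := (Nat.prime_dvd_prime_iff_eq hp h6).1 hpr
      subst h7
      exact hr.2 hy
    · have h5 : (p : ℤ) ∣ 1 := by
        rw [← h]
        exact dvd_add (dvd_add (h1.mul_left α) (hy.mul_left β)) (h4.mul_left γ)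
      exact hpz.not_isUnit (isUnit_of_dvd_one h5)
  · have h3 : p ∈ Q := by
      rw [hQ, Finset.mem_filter, Nat.mem_primeFactors]
      exact ⟨⟨hp, Int.natCast_dvd.1 h1, Int.natAbs_ne_zero.2 ha⟩, hy⟩
    have h4 : (p : ℤ) ∣ t := by
      rw [ht]
      exact Int.natCast_dvd_natCast.2 (Finset.dvd_prod_of_mem (fun p : ℕ => p) h3)
    exact hy ((dvd_add_left (h4.mul_right z)).1 h2)

end Pool.Agent.Q190.SC
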