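import Pool.Agent.Q290.SC.Stm

/-! Project SC (helper290), job RZ: first reduction step of a vector. -/

set_option autoImplicit false

namespace Pool.Agent.Q190.SC

open Pool.Agent.Q290.SC Pool.Agent.H29R2.MG

variable {g : ℕ}

/-- the case of a nonzero coordinate in another handle -/
theorem rz_core (hNT : S_NT) {q : ℤ} {S : Finset (Fin g)} {k : Fin g} (hk : k ∈ S)
    {w : VV g} (hw : Sup S w) (hq : ∀ j, q ∣ w j - ve k j) (hpr : ∃ z, om w z = 1)
    (hnz : ∃ x, Sup (S.erase k) x ∧ om x w ≠ 0) :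
    ∃ X ∈ KS q S, ∃ (α : ℤ) (z : VV g), Sup (S.erase k) z ∧
      α * ac X w (Sum.inl k) + om z (ac X w) = 1 := by
  classical
  -- the ideal of the values
  let I : Submodule ℤ ℤ :=
    { carrier := {n | ∃ x, Sup (S.erase k) x ∧ om x w = n}
      add_mem' := by
        rintro _ _ ⟨x, hx, rfl⟩ ⟨y, hy, rfl⟩
        exact ⟨x + y, hx.add hy, om_add_left x y w⟩
      zero_mem' := ⟨0, fun i _ => ⟨rfl, rfl⟩, by
        have := om_smul_left 0 (0 : VV g) w
        rw [zero_smul, zero_mul] at this
        exact this⟩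
      smul_mem' := by
        rintro c _ ⟨x, hx, rfl⟩
        exact ⟨c • x, hx.smul c, om_smul_left c x w⟩ }
  obtain ⟨d, hd⟩ := (IsPrincipalIdealRing.principal I).principal
  have hd1 : d ∈ I := by
    rw [hd]
    exact Submodule.mem_span_singleton_self d
  obtain ⟨x₀, hx₀, hx₀d⟩ := hd1
  have hdv : ∀ x, Sup (S.erase k) x → d ∣ om x w := by
    intro x hx
    have h1 : om x w ∈ I := ⟨x, hx, rfl⟩
    rw [hd] at h1
    exact Ideal.mem_span_singleton.1 h1
  have hd0 : d ≠ 0 := by
    rintro rfl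
    obtain ⟨x, hx, hxw⟩ := hnz
    exact hxw (zero_dvd_iff.1 (hdv x hx))
  -- splitting
  obtain ⟨z, hz⟩ := hpr
  let z' : VV g := fun j => match j with
    | Sum.inl i => if i ∈ S.erase k then z (Sum.inl i) else 0
    | Sum.inr i => if i ∈ S.erase k then z (Sum.inr i) else 0
  have hz' : Sup (S.erase k) z' := by
    intro i hi
    exact ⟨if_neg hi, if_neg hi⟩
  have hsplit : om w z - om w z' = w (Sum.inl k) * z (Sum.inr k) - w (Sum.inr k) * z (Sum.inl k) := by
    unfold om intersectionForm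
    rw [← Finset.sum_sub_distrib, Finset.sum_eq_single k]
    · have h1 : z' (Sum.inl k) = 0 := if_neg (Finset.notMem_erase k S)
      have h2 : z' (Sum.inr k) = 0 := if_neg (Finset.notMem_erase k S)
      rw [h1, h2]
      ring
    · intro i _ hi
      by_cases hiS : i ∈ S
      · have h1 : z' (Sum.inl i) = z (Sum.inl i) := if_pos (Finset.mem_erase.2 ⟨hi, hiS⟩)
        have h2 : z' (Sum.inr i) = z (Sum.inr i) := if_pos (Finset.mem_erase.2 ⟨hi, hiS⟩)
        rw [h1, h2]
        ring
      · rw [(hw i hiS).1, (hw i hiS).2]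
        ring
    · intro h
      exact absurd (Finset.mem_univ k) h
  obtain ⟨δ, hδ⟩ := hdv z' hz'
  have hδ' : om w z' = -(d * δ) := by rw [om_swap, hδ]
  have hak : (ve k : VV g) (Sum.inl k) = 1 := by simp [ve]
  obtain ⟨m, hm⟩ := hq (Sum.inl k)
  rw [hak] at hm
  obtain ⟨t, u, s, ht⟩ := hNT d (w (Sum.inl k)) (q * w (Sum.inr k)) hd0
    ⟨-δ, z (Sum.inr k) - z (Sum.inl k) * w (Sum.inr k), z (Sum.inl k) * m, by
      rw [hz, hδ'] at hsplit
      linear_combination -hsplit - z (Sum.inl k) * w (Sum.inr k) * hm⟩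
  refine ⟨T (ve k) (q * t), T_mem (sup_ve hk) (dvd_mul_right _ _), s, u • x₀, hx₀.smul u, ?_⟩
  rw [ac_T, om_add_right, om_smul_left, om_smul_left, om_smul_right, om_ve, om_ve', hx₀d,
    (hx₀ k (Finset.notMem_erase k S)).2, Pi.add_apply, Pi.smul_apply, smul_eq_mul, hak]
  linear_combination ht

/-- JOB RZ -/
theorem rz : S_NT → S_RZ := by
  intro hNT g q S k i hq2 hk hi hik w hw hq hpr
  have hki : k ≠ i := hik.symm
  by_cases hnz : ∃ x, Sup (S.erase k) x ∧ om x w ≠ 0
  · exact rz_core hNT hk hw hq hpr hnz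
  · push Not at hnz
    have hie : i ∈ S.erase k := Finset.mem_erase.2 ⟨hik, hi⟩
    have h1 : w (Sum.inr i) = 0 := by
      have := hnz _ (sup_ve hie)
      rw [om_ve] at this
      exact this
    have h2 : w (Sum.inl i) = 0 := by
      have := hnz _ (sup_vf hie)
      rw [om_vf, neg_eq_zero] at this
      exact this
    have hom : om (vf k : VV g) (ve i) = 0 := by
      rw [om_vf, ve, Pi.single_apply, if_neg, neg_zero]
      intro h
      exact hki (Sum.inl.inj h)
    have hYm : E (vf k) (ve i) q ∈ KS q S := E_mem (sup_vf hk) (sup_ve hi) dvd_rfl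
    have hYw : ac (E (vf k) (ve i) q) w = w + (-(q * w (Sum.inl k))) • (ve i : VV g) := by
      rw [ac_E hom, om_vf, om_ve, h1, zero_smul, add_zero, smul_smul]
      congr 2
      ring
    have hak : (ve k : VV g) (Sum.inl k) = 1 := by simp [ve]
    have ha : w (Sum.inl k) ≠ 0 := by
      intro h0
      have h3 := hq (Sum.inl k)
      rw [hak, h0, zero_sub, dvd_neg] at h3
      have h4 := Int.le_of_dvd one_pos h3
      omega
    obtain ⟨X, hX, α, z, hz, h⟩ := rz_core hNT (q := q) hk (w := ac (E (vf k) (ve i) q) w)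
      (hw.act (KS_Fx hYm))
      (by
        intro j
        rw [hYw]
        have h3 : (w + (-(q * w (Sum.inl k))) • (ve i : VV g)) j - ve k j =
            (w j - ve k j) + q * (-(w (Sum.inl k)) * (ve i : VV g) j) := by
          simp only [Pi.add_apply, Pi.smul_apply, smul_eq_mul]
          ring
        rw [h3]
        exact dvd_add (hq j) (dvd_mul_right _ _))
      (by
        obtain ⟨z, hz⟩ := hpr
        exact ⟨ac (E (vf k) (ve i) q) z, by rw [om_ac, hz]⟩)
      ⟨vf i, sup_vf hie, by
        rw [hYw, om_vf, Pi.add_apply, Pi.smul_apply, smul_eq_mul, h2]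
        have h3 : (ve i : VV g) (Sum.inl i) = 1 := by simp [ve]
        rw [h3]
        have hq0 : q ≠ 0 := by omega
        intro h0
        have h4 : q * w (Sum.inl k) = 0 := by linarith
        rcases mul_eq_zero.1 h4 with h5 | h5
        · exact hq0 h5
        · exact ha h5⟩
    refine ⟨X * E (vf k) (ve i) q, mul_mem hX hYm, α, z, hz, ?_⟩
    rw [ac_mul]
    exact h

end Pool.Agent.Q190.SC
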